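import Pool.Agent.Helper59.EN.AreaP
import Pool.Agent.Helper18.UY.Vel

/-!
# The last step: from the number of preimages to the measure of the points with a large velocity
-/

set_option autoImplicit false

namespace Pool.Agent.Helper59.EN

open MeasureTheory Set Filter Topology Pool.Agent.Helper18.UC Pool.Agent.Helper18.UY
open scoped ENNReal

/-- the form with real `M` -/
theorem area_end {f f' : ℝ → ℝ} (hf : ∀ x, HasDerivAt f (f' x) x) (hc : Continuous f')
    {S : Set ℝ} (hS : MeasurableSet S) {M : ℝ} (hM0 : 0 < M) (hM : ∀ x ∈ S, M ≤ |f' x|) {p : ℝ}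
    (hp : 0 < p) {K : ℝ≥0∞}
    (hK : ∀ w, (({s ∈ S | ∃ i : ℤ, f s = w + i * p}.encard : ℕ∞) : ℝ≥0∞) ≤ K) :
    ENNReal.ofReal M * volume S ≤ ENNReal.ofReal p * K :=
  area_period hf hc hS (fun x hx => ENNReal.ofReal_le_ofReal (hM x hx))
    (fun x hx h => by
      have := hM x hx
      rw [h, abs_zero] at this
      linarith) hp hK

theorem hasDerivAt_fst (a b t : ℝ) (n : ℕ) (s : ℝ) :
    HasDerivAt (fun s => ((F a)^[n] (ln b t s)).1) (wx a b n (ln b t s)) s := by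
  have h := (xc_diff a b t (n + 1) (s : ℂ)).hasDerivAt
  rw [(deriv_xc_real a b t n s).1] at h
  have h2 := h.real_of_complex
  simp only [Complex.ofReal_re] at h2
  refine h2.congr_of_eventuallyEq (Eventually.of_forall fun u => ?_)
  show ((F a)^[n] (ln b t u)).1 = (xc a b t (n + 1) (u : ℂ)).re
  rw [(xc_real a b t n u).1, Complex.ofReal_re]

theorem hasDerivAt_snd (a b t : ℝ) (n : ℕ) (s : ℝ) :
    HasDerivAt (fun s => ((F a)^[n] (ln b t s)).2) (wy a b n (ln b t s)) s := by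
  have h := (xc_diff a b t n (s : ℂ)).hasDerivAt
  rw [(deriv_xc_real a b t n s).2] at h
  have h2 := h.real_of_complex
  simp only [Complex.ofReal_re] at h2
  refine h2.congr_of_eventuallyEq (Eventually.of_forall fun u => ?_)
  show ((F a)^[n] (ln b t u)).2 = (xc a b t n (u : ℂ)).re
  rw [(xc_real a b t n u).2, Complex.ofReal_re]

theorem continuous_ln (b t : ℝ) : Continuous (ln b t) := by
  unfold ln
  fun_prop

/-- **The end.** -/
theorem end_est (a b t : ℝ) (n : ℕ) {S : Set ℝ} (hS : MeasurableSet S) {L p : ℝ} (hL : 0 < L)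
    (hp : 0 < p) {K₁ K₀ : ℝ≥0∞}
    (h1 : ∀ w : ℝ, (({s ∈ S | ∃ i : ℤ, ((F a)^[n] (ln b t s)).1 = w + i * p}.encard : ℕ∞) : ℝ≥0∞)
      ≤ K₁)
    (h0 : ∀ w : ℝ, (({s ∈ S | ∃ i : ℤ, ((F a)^[n] (ln b t s)).2 = w + i * p}.encard : ℕ∞) : ℝ≥0∞)
      ≤ K₀) :
    ENNReal.ofReal L * volume {s ∈ S | L ≤ V a b n (ln b t s)} ≤ ENNReal.ofReal p * (K₁ + K₀) := by
  have c1 : Continuous fun s => wx a b n (ln b t s) := (wx_cont a b n).comp (continuous_ln b t)
  have c0 : Continuous fun s => wy a b n (ln b t s) := (wy_cont a b n).comp (continuous_ln b t)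
  have m1 : MeasurableSet {s ∈ S | L ≤ |wx a b n (ln b t s)|} :=
    hS.inter (isClosed_le continuous_const c1.abs).measurableSet
  have m0 : MeasurableSet {s ∈ S | L ≤ |wy a b n (ln b t s)|} :=
    hS.inter (isClosed_le continuous_const c0.abs).measurableSet
  have e1 : ENNReal.ofReal L * volume {s ∈ S | L ≤ |wx a b n (ln b t s)|}
      ≤ ENNReal.ofReal p * K₁ := by
    refine area_end (hasDerivAt_fst a b t n) c1 m1 hL (fun x hx => hx.2) hp fun w => ?_
    refine le_trans ?_ (h1 w)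
    refine ENat.toENNReal_le.2 (Set.encard_le_encard ?_)
    rintro s ⟨⟨hs, -⟩, hi⟩
    exact ⟨hs, hi⟩
  have e0 : ENNReal.ofReal L * volume {s ∈ S | L ≤ |wy a b n (ln b t s)|}
      ≤ ENNReal.ofReal p * K₀ := by
    refine area_end (hasDerivAt_snd a b t n) c0 m0 hL (fun x hx => hx.2) hp fun w => ?_
    refine le_trans ?_ (h0 w)
    refine ENat.toENNReal_le.2 (Set.encard_le_encard ?_)
    rintro s ⟨⟨hs, -⟩, hi⟩
    exact ⟨hs, hi⟩
  have hsub : {s ∈ S | L ≤ V a b n (ln b t s)} ⊆ {s ∈ S | L ≤ |wx a b n (ln b t s)|} ∪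
      {s ∈ S | L ≤ |wy a b n (ln b t s)|} := by
    rintro s ⟨hs, hL'⟩
    rcases le_max_iff.1 hL' with h | h
    · exact Or.inl ⟨hs, h⟩
    · exact Or.inr ⟨hs, h⟩
  calc ENNReal.ofReal L * volume {s ∈ S | L ≤ V a b n (ln b t s)}
      ≤ ENNReal.ofReal L * (volume {s ∈ S | L ≤ |wx a b n (ln b t s)|} +
        volume {s ∈ S | L ≤ |wy a b n (ln b t s)|}) := by
        gcongr
        exact (measure_mono hsub).trans (measure_union_le _ _)
    _ ≤ ENNReal.ofReal p * (K₁ + K₀) := by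
        rw [mul_add, mul_add]
        exact add_le_add e1 e0

/-- a set of real numbers has as many points as its image in the complex plane -/
theorem encard_ofReal (Y : Set ℝ) : ((fun s : ℝ => (s : ℂ)) '' Y).encard = Y.encard :=
  Complex.ofReal_injective.injOn.encard_image

/-- **The end**, in terms of the complex functions: the sets of the points of `S` with `xc k` in
`w + p ℤ`, `k = n + 1` and `k = n`. -/
theorem end_xc (a b t : ℝ) (n : ℕ) {S : Set ℝ} (hS : MeasurableSet S) {L p : ℝ} (hL : 0 < L)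
    (hp : 0 < p) {K₁ K₀ : ℝ≥0∞}
    (h1 : ∀ w : ℝ, (({z : ℂ | ∃ s ∈ S, z = (s : ℂ) ∧
      ∃ i : ℤ, xc a b t (n + 1) z = ((w + i * p : ℝ) : ℂ)}.encard : ℕ∞) : ℝ≥0∞) ≤ K₁)
    (h0 : ∀ w : ℝ, (({z : ℂ | ∃ s ∈ S, z = (s : ℂ) ∧
      ∃ i : ℤ, xc a b t n z = ((w + i * p : ℝ) : ℂ)}.encard : ℕ∞) : ℝ≥0∞) ≤ K₀) :
    ENNReal.ofReal L * volume {s ∈ S | L ≤ V a b n (ln b t s)} ≤ ENNReal.ofReal p * (K₁ + K₀) := by
  refine end_est a b t n hS hL hp (fun w => ?_) fun w => ?_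
  · refine le_trans ?_ (h1 w)
    rw [← encard_ofReal]
    refine ENat.toENNReal_le.2 (Set.encard_le_encard ?_)
    rintro _ ⟨s, ⟨hs, i, hi⟩, rfl⟩
    exact ⟨s, hs, rfl, i, by rw [(xc_real a b t n s).1, hi]⟩
  · refine le_trans ?_ (h0 w)
    rw [← encard_ofReal]
    refine ENat.toENNReal_le.2 (Set.encard_le_encard ?_)
    rintro _ ⟨s, ⟨hs, i, hi⟩, rfl⟩
    exact ⟨s, hs, rfl, i, by rw [(xc_real a b t n s).2, hi]⟩

end Pool.Agent.Helper59.EN
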