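import Mathlib

/-!
# The area inequality on the line
-/

set_option autoImplicit false

namespace Pool.Agent.Helper59.EN

open MeasureTheory Set Filter Topology
open scoped ENNReal

/-- the sum of the indicators of the images of disjoint sets is at most the number of preimages -/
theorem tsum_image_le {α β : Type*} (f : α → β) {S : Set α} {T : ℕ → Set α}
    (hT : ∀ k, T k ⊆ S) (hd : Pairwise fun i j => Disjoint (T i) (T j)) (w : β) :
    ∑' k, (f '' T k).indicator (fun _ => (1 : ℝ≥0∞)) w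
      ≤ (({s ∈ S | f s = w}.encard : ℕ∞) : ℝ≥0∞) := by
  classical
  rw [ENNReal.tsum_eq_iSup_sum]
  refine iSup_le fun F => ?_
  let G : Finset ℕ := F.filter fun k => w ∈ f '' T k
  have h1 : ∑ k ∈ F, (f '' T k).indicator (fun _ => (1 : ℝ≥0∞)) w = (G.card : ℝ≥0∞) := by
    simp only [Set.indicator_apply, G]
    rw [← Finset.sum_filter, Finset.sum_const, nsmul_eq_mul, mul_one]
  rw [h1]
  have h2 : ∀ k ∈ G, ∃ s, s ∈ T k ∧ f s = w := fun k hk => (Finset.mem_filter.1 hk).2
  rcases isEmpty_or_nonempty α with hα | hα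
  · have : G = ∅ := Finset.eq_empty_of_forall_notMem fun k hk => by
      obtain ⟨s, -⟩ := h2 k hk
      exact hα.elim s
    rw [this]
    simp
  choose! s hs using h2
  have hinj : Set.InjOn s (G : Set ℕ) := by
    intro i hi j hj hij
    by_contra hne
    exact (Set.disjoint_left.1 (hd hne)) (hs i hi).1 (hij ▸ (hs j hj).1)
  have h3 : (s '' (G : Set ℕ)) ⊆ {s ∈ S | f s = w} := by
    rintro _ ⟨k, hk, rfl⟩
    exact ⟨hT k (hs k hk).1, (hs k hk).2⟩
  have h4 : ((G.card : ℕ∞)) ≤ {s ∈ S | f s = w}.encard := by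
    have := Set.encard_le_encard h3
    rwa [hinj.encard_image, Set.encard_coe_eq_coe_finsetCard] at this
  calc (G.card : ℝ≥0∞) = ((G.card : ℕ∞) : ℝ≥0∞) := by simp
    _ ≤ _ := by exact_mod_cast h4

/-- near a point where the derivative is not zero the function is injective -/
theorem exists_injOn {f f' : ℝ → ℝ} (hf : ∀ x, HasDerivAt f (f' x) x) (hc : Continuous f') {x : ℝ}
    (hx : f' x ≠ 0) : ∃ p q : ℚ, x ∈ Ioo (p : ℝ) q ∧ InjOn f (Ioo (p : ℝ) q) := by
  have hd : ∀ y, deriv f y = f' y := fun y => (hf y).deriv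
  have hcf : Continuous f := continuous_iff_continuousAt.2 fun y => (hf y).continuousAt
  have hs : {y | f' y ≠ 0 ∧ 0 < f' x * f' y} ∈ 𝓝 x := by
    have h2 : ∀ᶠ y in 𝓝 x, 0 < f' x * f' y :=
      ((continuous_const.mul hc).continuousAt (x := x)).eventually_const_lt
        (mul_self_pos.2 hx)
    filter_upwards [h2] with y hy
    exact ⟨fun h => by rw [h, mul_zero] at hy; exact lt_irrefl _ hy, hy⟩
  obtain ⟨a, b, hab, hsub⟩ := mem_nhds_iff_exists_Ioo_subset.1 hs
  obtain ⟨p, hp1, hp2⟩ := exists_rat_btwn hab.1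
  obtain ⟨q, hq1, hq2⟩ := exists_rat_btwn hab.2
  refine ⟨p, q, ⟨hp2, hq1⟩, ?_⟩
  have hy : ∀ y ∈ Ioo (p : ℝ) q, 0 < f' x * f' y := fun y hy =>
    (hsub ⟨hp1.trans hy.1, hy.2.trans hq2⟩).2
  rcases lt_or_gt_of_ne hx with h | h
  · refine (strictAntiOn_of_deriv_neg (convex_Ioo _ _) hcf.continuousOn fun y h2 => ?_).injOn
    rw [interior_Ioo] at h2
    rw [hd]
    exact neg_of_mul_pos_right (hy y h2) h.le
  · refine (strictMonoOn_of_deriv_pos (convex_Ioo _ _) hcf.continuousOn fun y h2 => ?_).injOn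
    rw [interior_Ioo] at h2
    rw [hd]
    exact pos_of_mul_pos_right (hy y h2) h.le

/-- **The area inequality.** -/
theorem area {f f' : ℝ → ℝ} (hf : ∀ x, HasDerivAt f (f' x) x) (hc : Continuous f') {S : Set ℝ}
    (hS : MeasurableSet S) {M : ℝ≥0∞} (hM : ∀ x ∈ S, M ≤ ENNReal.ofReal |f' x|)
    (h0 : ∀ x ∈ S, f' x ≠ 0) (N : ℝ → ℝ≥0∞)
    (hN : ∀ w, (({s ∈ S | f s = w}.encard : ℕ∞) : ℝ≥0∞) ≤ N w) :
    M * volume S ≤ ∫⁻ w, N w := by
  classical
  -- a countable family of intervals of injectivity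
  obtain ⟨e, he⟩ : ∃ e : ℕ → ℚ × ℚ, Function.Surjective e :=
    exists_surjective_nat (ℚ × ℚ)
  let I : ℕ → Set ℝ := fun k =>
    if InjOn f (Ioo ((e k).1 : ℝ) (e k).2) then Ioo ((e k).1 : ℝ) (e k).2 else ∅
  have hI : ∀ k, InjOn f (I k) := by
    intro k
    by_cases h : InjOn f (Ioo ((e k).1 : ℝ) (e k).2)
    · simp only [I, if_pos h]; exact h
    · simp only [I, if_neg h]; exact injOn_empty f
  have hIm : ∀ k, MeasurableSet (I k) := by
    intro k
    by_cases h : InjOn f (Ioo ((e k).1 : ℝ) (e k).2)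
    · simp only [I, if_pos h]; exact measurableSet_Ioo
    · simp only [I, if_neg h]; exact MeasurableSet.empty
  let T : ℕ → Set ℝ := fun k => S ∩ disjointed I k
  have hTm : ∀ k, MeasurableSet (T k) := fun k => hS.inter (MeasurableSet.disjointed hIm k)
  have hTS : ∀ k, T k ⊆ S := fun k => inter_subset_left
  have hTI : ∀ k, T k ⊆ I k := fun k => inter_subset_right.trans (disjointed_subset I k)
  have hTd : Pairwise fun i j => Disjoint (T i) (T j) := fun i j hij =>
    (disjoint_disjointed I hij).mono inter_subset_right inter_subset_right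
  have hTU : ⋃ k, T k = S := by
    rw [← inter_iUnion, iUnion_disjointed]
    refine inter_eq_left.2 fun x hx => ?_
    obtain ⟨p, q, hxm, hinj⟩ := exists_injOn hf hc (h0 x hx)
    obtain ⟨k, hk⟩ := he (p, q)
    refine mem_iUnion.2 ⟨k, ?_⟩
    have hk1 : (e k).1 = p := by rw [hk]
    have hk2 : (e k).2 = q := by rw [hk]
    simp only [I, hk1, hk2, if_pos hinj]
    exact hxm
  have hcont : Continuous f := continuous_iff_continuousAt.2 fun x => (hf x).continuousAt
  have him : ∀ k, MeasurableSet (f '' T k) := fun k =>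
    (hTm k).image_of_continuousOn_injOn hcont.continuousOn ((hI k).mono (hTI k))
  have hvol : ∀ k, volume (f '' T k) = ∫⁻ x in T k, ENNReal.ofReal |f' x| := by
    intro k
    have := lintegral_image_eq_lintegral_abs_deriv_mul (hTm k)
      (fun x _ => (hf x).hasDerivWithinAt) ((hI k).mono (hTI k)) (fun _ => (1 : ℝ≥0∞))
    simpa using this
  calc M * volume S = M * ∑' k, volume (T k) := by
        rw [← measure_iUnion hTd hTm, hTU]
    _ = ∑' k, M * volume (T k) := ENNReal.tsum_mul_left.symm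
    _ ≤ ∑' k, volume (f '' T k) := by
        refine ENNReal.tsum_le_tsum fun k => ?_
        rw [hvol k, ← setLIntegral_const]
        exact setLIntegral_mono' (hTm k) fun x hx => hM x (hTS k hx)
    _ = ∑' k, ∫⁻ w, (f '' T k).indicator (fun _ => (1 : ℝ≥0∞)) w := by
        refine tsum_congr fun k => ?_
        rw [lintegral_indicator (him k)]
        simp
    _ = ∫⁻ w, ∑' k, (f '' T k).indicator (fun _ => (1 : ℝ≥0∞)) w := by
        rw [lintegral_tsum]
        intro k
        exact (measurable_const.indicator (him k)).aemeasurable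
    _ ≤ ∫⁻ w, N w := lintegral_mono fun w => (tsum_image_le f hTS hTd w).trans (hN w)

end Pool.Agent.Helper59.EN
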