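import Pool.Agent.Helper59.EN.Area

/-!
# The area inequality on the line, periodic form
-/

set_option autoImplicit false

namespace Pool.Agent.Helper59.EN

open MeasureTheory Set Filter Topology
open scoped ENNReal

/-- disjoint nonempty subsets are at most as many as the points -/
theorem tsum_nonempty_le {α ι : Type*} {B : Set α} {A : ι → Set α} (hA : ∀ i, A i ⊆ B)
    (hd : Pairwise fun i j => Disjoint (A i) (A j)) (c : ι → ℝ≥0∞)
    (hc : ∀ i, c i ≤ 1) (hc0 : ∀ i, c i ≠ 0 → (A i).Nonempty) :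
    ∑' i, c i ≤ ((B.encard : ℕ∞) : ℝ≥0∞) := by
  classical
  rw [ENNReal.tsum_eq_iSup_sum]
  refine iSup_le fun F => ?_
  let G : Finset ι := F.filter fun i => (A i).Nonempty
  have h1 : ∑ i ∈ F, c i ≤ (G.card : ℝ≥0∞) := by
    calc ∑ i ∈ F, c i ≤ ∑ i ∈ F, if (A i).Nonempty then (1 : ℝ≥0∞) else 0 := by
          refine Finset.sum_le_sum fun i _ => ?_
          split_ifs with h
          · exact hc i
          · by_contra h2
            exact h (hc0 i fun h3 => h2 (by rw [h3]))
      _ = (G.card : ℝ≥0∞) := by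
          rw [← Finset.sum_filter, Finset.sum_const, nsmul_eq_mul, mul_one]
  refine h1.trans ?_
  have h2 : ∀ k ∈ G, ∃ s, s ∈ A k := fun k hk => (Finset.mem_filter.1 hk).2
  rcases isEmpty_or_nonempty α with hα | hα
  · have : G = ∅ := Finset.eq_empty_of_forall_notMem fun k hk => by
      obtain ⟨s, -⟩ := h2 k hk
      exact hα.elim s
    rw [this]
    simp
  choose! s hs using h2
  have hinj : Set.InjOn s (G : Set ι) := by
    intro i hi j hj hij
    by_contra hne
    exact (Set.disjoint_left.1 (hd hne)) (hs i hi) (hij ▸ hs j hj)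
  have h3 : (s '' (G : Set ι)) ⊆ B := by
    rintro _ ⟨k, hk, rfl⟩
    exact hA k (hs k hk)
  have h4 : ((G.card : ℕ∞)) ≤ B.encard := by
    have := Set.encard_le_encard h3
    rwa [hinj.encard_image, Set.encard_coe_eq_coe_finsetCard] at this
  calc (G.card : ℝ≥0∞) = ((G.card : ℕ∞) : ℝ≥0∞) := by simp
    _ ≤ _ := by exact_mod_cast h4

/-- a decomposition of a set on which the derivative is not zero -/
theorem exists_pieces {f f' : ℝ → ℝ} (hf : ∀ x, HasDerivAt f (f' x) x) (hc : Continuous f')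
    {S : Set ℝ} (hS : MeasurableSet S) (h0 : ∀ x ∈ S, f' x ≠ 0) :
    ∃ T : ℕ → Set ℝ, (∀ k, MeasurableSet (T k)) ∧ (Pairwise fun i j => Disjoint (T i) (T j)) ∧
      (⋃ k, T k = S) ∧ (∀ k, InjOn f (T k)) ∧ (∀ k, MeasurableSet (f '' T k)) := by
  classical
  obtain ⟨e, he⟩ : ∃ e : ℕ → ℚ × ℚ, Function.Surjective e := exists_surjective_nat (ℚ × ℚ)
  let I : ℕ → Set ℝ := fun k =>
    if InjOn f (Ioo ((e k).1 : ℝ) (e k).2) then Ioo ((e k).1 : ℝ) (e k).2 else ∅
  have hI : ∀ k, InjOn f (I k) := by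
    intro k
    by_cases h : InjOn f (Ioo ((e k).1 : ℝ) (e k).2)
    · simp only [I, if_pos h]; exact h
    · simp only [I, if_neg h]; exact injOn_empty f
  have hIm : ∀ k, MeasurableSet (I k) := by
    intro k
    by_cases h : InjOn f (Ioo ((e k).1 : ℝ) (e k).2)
    · simp only [I, if_pos h]; exact measurableSet_Ioo
    · simp only [I, if_neg h]; exact MeasurableSet.empty
  have hcont : Continuous f := continuous_iff_continuousAt.2 fun x => (hf x).continuousAt
  have hTm : ∀ k, MeasurableSet (S ∩ disjointed I k) := fun k =>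
    hS.inter (MeasurableSet.disjointed hIm k)
  have hTI : ∀ k, InjOn f (S ∩ disjointed I k) := fun k =>
    (hI k).mono (inter_subset_right.trans (disjointed_subset I k))
  refine ⟨fun k => S ∩ disjointed I k, hTm, fun i j hij =>
    (disjoint_disjointed I hij).mono inter_subset_right inter_subset_right, ?_, hTI, fun k =>
      (hTm k).image_of_continuousOn_injOn hcont.continuousOn (hTI k)⟩
  rw [← inter_iUnion, iUnion_disjointed]
  refine inter_eq_left.2 fun x hx => ?_
  obtain ⟨p, q, hxm, hinj⟩ := exists_injOn hf hc (h0 x hx)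
  obtain ⟨k, hk⟩ := he (p, q)
  refine mem_iUnion.2 ⟨k, ?_⟩
  have hk1 : (e k).1 = p := by rw [hk]
  have hk2 : (e k).2 = q := by rw [hk]
  simp only [I, hk1, hk2, if_pos hinj]
  exact hxm

/-- the integral over the line as an integral over a period -/
theorem lintegral_period {p : ℝ} (hp : 0 < p) {g : ℝ → ℝ≥0∞} (hg : Measurable g) :
    ∫⁻ w, g w = ∫⁻ w in Ico 0 p, ∑' i : ℤ, g (w + i * p) := by
  have h1 : (⋃ i : ℤ, Ico ((i : ℝ) * p) (((i : ℝ) + 1) * p)) = univ := by
    refine eq_univ_of_forall fun x => ?_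
    refine mem_iUnion.2 ⟨⌊x / p⌋, ?_, ?_⟩
    · have := Int.floor_le (x / p)
      rwa [le_div_iff₀ hp] at this
    · have := Int.lt_floor_add_one (x / p)
      rwa [div_lt_iff₀ hp] at this
  have h2 : Pairwise fun i j : ℤ => Disjoint (Ico ((i : ℝ) * p) (((i : ℝ) + 1) * p))
      (Ico ((j : ℝ) * p) (((j : ℝ) + 1) * p)) := by
    intro i j hij
    rw [Set.disjoint_left]
    rintro x ⟨a1, a2⟩ ⟨b1, b2⟩
    have c1 : (i : ℝ) < j + 1 := lt_of_mul_lt_mul_right (a1.trans_lt b2) hp.le
    have c2 : (j : ℝ) < i + 1 := lt_of_mul_lt_mul_right (b1.trans_lt a2) hp.le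
    have d1 : i < j + 1 := by exact_mod_cast c1
    have d2 : j < i + 1 := by exact_mod_cast c2
    omega
  have h5 : ∫⁻ w in Ico 0 p, ∑' i : ℤ, g (w + i * p) = ∑' i : ℤ, ∫⁻ w in Ico 0 p, g (w + i * p) :=
    lintegral_tsum (f := fun (i : ℤ) w => g (w + i * p)) fun i =>
      (hg.comp (measurable_id.add_const ((i : ℝ) * p))).aemeasurable
  rw [h5, ← setLIntegral_univ, ← h1, lintegral_iUnion (fun i => measurableSet_Ico) h2]
  refine tsum_congr fun i => ?_
  have h3 := (measurePreserving_add_right (volume : Measure ℝ) ((i : ℝ) * p))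
  have h4 := h3.setLIntegral_comp_preimage_emb (measurableEmbedding_addRight _) g
    (Ico ((i : ℝ) * p) (((i : ℝ) + 1) * p))
  rw [← h4]
  congr 2
  ext x
  simp only [mem_preimage, mem_Ico]
  constructor
  · rintro ⟨a, b⟩; constructor <;> nlinarith
  · rintro ⟨a, b⟩; constructor <;> nlinarith

/-- **The area inequality, periodic form.** -/
theorem area_period {f f' : ℝ → ℝ} (hf : ∀ x, HasDerivAt f (f' x) x) (hc : Continuous f')
    {S : Set ℝ} (hS : MeasurableSet S) {M : ℝ≥0∞} (hM : ∀ x ∈ S, M ≤ ENNReal.ofReal |f' x|)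
    (h0 : ∀ x ∈ S, f' x ≠ 0) {p : ℝ} (hp : 0 < p) {K : ℝ≥0∞}
    (hK : ∀ w, (({s ∈ S | ∃ i : ℤ, f s = w + i * p}.encard : ℕ∞) : ℝ≥0∞) ≤ K) :
    M * volume S ≤ ENNReal.ofReal p * K := by
  classical
  obtain ⟨T, hTm, hTd, hTU, hTI, him⟩ := exists_pieces hf hc hS h0
  have hTS : ∀ k, T k ⊆ S := fun k => hTU ▸ subset_iUnion T k
  have hvol : ∀ k, volume (f '' T k) = ∫⁻ x in T k, ENNReal.ofReal |f' x| := by
    intro k
    have := lintegral_image_eq_lintegral_abs_deriv_mul (hTm k)
      (fun x _ => (hf x).hasDerivWithinAt) (hTI k) (fun _ => (1 : ℝ≥0∞))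
    simpa using this
  have hmeas : Measurable fun w => ∑' k, (f '' T k).indicator (fun _ => (1 : ℝ≥0∞)) w :=
    Measurable.tsum fun k => measurable_const.indicator (him k)
  calc M * volume S = M * ∑' k, volume (T k) := by
        rw [← measure_iUnion hTd hTm, hTU]
    _ = ∑' k, M * volume (T k) := ENNReal.tsum_mul_left.symm
    _ ≤ ∑' k, volume (f '' T k) := by
        refine ENNReal.tsum_le_tsum fun k => ?_
        rw [hvol k, ← setLIntegral_const]
        exact setLIntegral_mono' (hTm k) fun x hx => hM x (hTS k hx)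
    _ = ∑' k, ∫⁻ w, (f '' T k).indicator (fun _ => (1 : ℝ≥0∞)) w := by
        refine tsum_congr fun k => ?_
        rw [lintegral_indicator (him k)]
        simp
    _ = ∫⁻ w, ∑' k, (f '' T k).indicator (fun _ => (1 : ℝ≥0∞)) w := by
        rw [lintegral_tsum]
        intro k
        exact (measurable_const.indicator (him k)).aemeasurable
    _ = ∫⁻ w in Ico 0 p, ∑' i : ℤ, ∑' k, (f '' T k).indicator (fun _ => (1 : ℝ≥0∞)) (w + i * p) :=
        lintegral_period hp hmeas
    _ ≤ ∫⁻ w in Ico 0 p, K := by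
        refine lintegral_mono fun w => (le_trans ?_ (hK w))
        rw [← ENNReal.tsum_prod]
        refine tsum_nonempty_le (A := fun q : ℤ × ℕ => {s ∈ T q.2 | f s = w + q.1 * p}) ?_ ?_ _ ?_ ?_
        · rintro ⟨i, k⟩ s ⟨hs, hfs⟩
          exact ⟨hTS k hs, i, hfs⟩
        · rintro ⟨i, k⟩ ⟨j, l⟩ hne
          rw [Set.disjoint_left]
          rintro s ⟨hs, hfs⟩ ⟨hs', hfs'⟩
          by_cases hkl : k = l
          · subst hkl
            have h5 : (i : ℝ) * p = j * p := by
              have := hfs.symm.trans hfs'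
              linarith
            have h6 : (i : ℝ) = j := mul_right_cancel₀ hp.ne' h5
            have h7 : i = j := by exact_mod_cast h6
            exact hne (by rw [h7])
          · exact (Set.disjoint_left.1 (hTd hkl)) hs hs'
        · rintro ⟨i, k⟩
          simp only [indicator_apply]
          split_ifs <;> simp
        · rintro ⟨i, k⟩ h
          simp only [indicator_apply, ne_eq, ite_eq_right_iff, one_ne_zero, imp_false,
            not_not] at h
          obtain ⟨s, hs, hfs⟩ := h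
          exact ⟨s, hs, hfs⟩
    _ = ENNReal.ofReal p * K := by
        rw [setLIntegral_const, Real.volume_Ico, sub_zero, mul_comm]

end Pool.Agent.Helper59.EN
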